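import Pool.Agent.Helper981.Irr

/-! The data of helper981's example in all dimensions `n ≥ 11`. -/

set_option autoImplicit false

open Set Filter Topology
open scoped NNReal ContDiff

namespace Pool.Agent.Y589.VT

open Pool.Agent.Helper981

variable {n : ℕ}

/-- the last coordinates and the time -/
noncomputable def tl (n : ℕ) : (Fin (n + 1) → ℝ) × ℝ →L[ℝ] (Fin n → ℝ) × ℝ :=
  (ContinuousLinearMap.pi fun i : Fin n => (ContinuousLinearMap.proj (R := ℝ) (φ := fun _ : Fin (n + 1) => ℝ) i.succ).comp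
    (ContinuousLinearMap.fst ℝ (Fin (n + 1) → ℝ) ℝ)).prod (ContinuousLinearMap.snd ℝ (Fin (n + 1) → ℝ) ℝ)

/-- the new coordinate -/
noncomputable def hd (n : ℕ) : (Fin (n + 1) → ℝ) × ℝ →L[ℝ] ℝ :=
  (ContinuousLinearMap.proj (R := ℝ) (φ := fun _ : Fin (n + 1) => ℝ) 0).comp
    (ContinuousLinearMap.fst ℝ (Fin (n + 1) → ℝ) ℝ)

lemma tl_apply (p : (Fin (n + 1) → ℝ) × ℝ) : tl n p = (fun i => p.1 i.succ, p.2) := rfl

lemma hd_apply (p : (Fin (n + 1) → ℝ) × ℝ) : hd n p = p.1 0 := rfl

lemma cos_int (x : ℝ) (k : ℤ) : Real.cos (2 * Real.pi * (x + k)) = Real.cos (2 * Real.pi * x) := by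
  rw [show 2 * Real.pi * (x + k) = 2 * Real.pi * x + k * (2 * Real.pi) by ring]
  exact Real.cos_add_int_mul_two_pi _ _

lemma sin_int (x : ℝ) (k : ℤ) : Real.sin (2 * Real.pi * (x + k)) = Real.sin (2 * Real.pi * x) := by
  rw [show 2 * Real.pi * (x + k) = 2 * Real.pi * x + k * (2 * Real.pi) by ring]
  exact Real.sin_add_int_mul_two_pi _ _

/-- the new test function -/
noncomputable def w0 (n : ℕ) (p : (Fin (n + 1) → ℝ) × ℝ) : ℝ :=
  hd n p - Real.sin (2 * Real.pi * hd n p) / (2 * Real.pi)

lemma w0_deriv (p : (Fin (n + 1) → ℝ) × ℝ) :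
    HasFDerivAt (w0 n) ((1 - Real.cos (2 * Real.pi * hd n p)) • hd n) p := by
  have h1 : HasDerivAt (fun s : ℝ => s - Real.sin (2 * Real.pi * s) / (2 * Real.pi))
      (1 - Real.cos (2 * Real.pi * hd n p)) (hd n p) := by
    have h2 : HasDerivAt (fun s : ℝ => 2 * Real.pi * s) (2 * Real.pi) (hd n p) := by
      simpa using (hasDerivAt_id (hd n p)).const_mul (2 * Real.pi)
    have h3 := (h2.sin).div_const (2 * Real.pi)
    have h4 := (hasDerivAt_id (hd n p)).sub h3
    refine h4.congr_deriv ?_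
    have : (2 * Real.pi) ≠ 0 := by positivity
    field_simp
  exact h1.comp_hasFDerivAt p (hd n).hasFDerivAt

/-- one more coordinate -/
noncomputable def extD (D : MData n) : MData (n + 1) where
  X p := fun i => Fin.cases 0 (fun j => D.X (tl n p) j) i
  V p := D.V (tl n p) + (1 - Real.cos (2 * Real.pi * hd n p))
  w i := Fin.cases (motive := fun _ => (Fin (n + 1) → ℝ) × ℝ → ℝ) (w0 n) (fun j p => D.w j (tl n p)) i
  h := fun i => Fin.cases 0 D.h i
  a := D.a
  k1 := fun i => Fin.cases 0 D.k1 i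
  C := D.C * ‖tl n‖ + ‖hd n‖
  γ x t := fun i => Fin.cases 0 (D.γ x t) i
  X_contDiff := by
    rw [contDiff_pi]
    intro i
    refine Fin.cases ?_ (fun j => ?_) i
    · exact contDiff_const
    · exact (contDiff_pi.1 (D.X_contDiff.comp (tl n).contDiff)) j
  V_contDiff := by
    refine (D.V_contDiff.comp (tl n).contDiff).add (contDiff_const.sub ?_)
    exact Real.contDiff_cos.comp (contDiff_const.mul (hd n).contDiff)
  w_contDiff := by
    intro i
    refine Fin.cases ?_ (fun j => ?_) i
    · show ContDiff ℝ 1 (w0 n)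
      refine (hd n).contDiff.sub (ContDiff.div_const ?_ _)
      exact Real.contDiff_sin.comp (contDiff_const.mul (hd n).contDiff)
    · exact (D.w_contDiff j).comp (tl n).contDiff
  X_per := by
    intro k m z t
    have h := D.X_per (fun i => k i.succ) m (fun i => z i.succ) t
    funext i
    refine Fin.cases ?_ (fun j => ?_) i
    · rfl
    · exact congrFun h j
  V_per := by
    intro k m z t
    have h := D.V_per (fun i => k i.succ) m (fun i => z i.succ) t
    have h2 := cos_int (z 0) (k 0)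
    show D.V ((fun i => z i.succ) + zc (fun i => k i.succ), t + m) +
      (1 - Real.cos (2 * Real.pi * (z 0 + (k 0 : ℝ)))) = _
    rw [h, h2]
    rfl
  w_per := by
    intro i k m z t
    refine Fin.cases ?_ (fun j => ?_) i
    · have h2 := sin_int (z 0) (k 0)
      show (z 0 + (k 0 : ℝ)) - Real.sin (2 * Real.pi * (z 0 + (k 0 : ℝ))) / (2 * Real.pi) =
        (z 0 - Real.sin (2 * Real.pi * z 0) / (2 * Real.pi)) + ((k 0 : ℝ) - m * 0)
      rw [h2]
      ring
    · exact D.w_per j (fun i => k i.succ) m (fun i => z i.succ) t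
  V_nonneg := fun p => add_nonneg (D.V_nonneg _) (sub_nonneg.2 (Real.cos_le_one _))
  C_nonneg := add_nonneg (mul_nonneg D.C_nonneg (norm_nonneg _)) (norm_nonneg _)
  w_bound := by
    intro i p
    have hV := D.V_nonneg (tl n p)
    have hc : 0 ≤ 1 - Real.cos (2 * Real.pi * hd n p) := sub_nonneg.2 (Real.cos_le_one _)
    have hC := D.C_nonneg
    have hn1 : 0 ≤ ‖tl n‖ := norm_nonneg _
    have hn2 : 0 ≤ ‖hd n‖ := norm_nonneg _
    refine Fin.cases ?_ (fun j => ?_) i
    · show ‖fderiv ℝ (w0 n) p‖ ≤ _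
      rw [(w0_deriv p).fderiv, norm_smul, Real.norm_eq_abs, abs_of_nonneg hc]
      have e1 : 0 ≤ D.C * ‖tl n‖ * (D.V (tl n p) + (1 - Real.cos (2 * Real.pi * hd n p))) := by positivity
      have e2 : 0 ≤ ‖hd n‖ * D.V (tl n p) := by positivity
      nlinarith
    · show ‖fderiv ℝ (fun p => D.w j (tl n p)) p‖ ≤ _
      have h1 : fderiv ℝ (fun p => D.w j (tl n p)) p = (fderiv ℝ (D.w j) (tl n p)).comp (tl n) :=
        (((D.w_contDiff j).differentiable (by norm_num) (tl n p)).hasFDerivAt.comp p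
          (tl n).hasFDerivAt).fderiv
      rw [h1]
      refine (ContinuousLinearMap.opNorm_comp_le _ _).trans ?_
      have h2 := D.w_bound j (tl n p)
      calc ‖fderiv ℝ (D.w j) (tl n p)‖ * ‖tl n‖ ≤ (D.C * D.V (tl n p)) * ‖tl n‖ := by gcongr
        _ ≤ _ := by
          have e1 : 0 ≤ D.C * ‖tl n‖ * (1 - Real.cos (2 * Real.pi * hd n p)) := by positivity
          have e2 : 0 ≤ ‖hd n‖ * (D.V (tl n p) + (1 - Real.cos (2 * Real.pi * hd n p))) := by positivity
          nlinarith
  γ_deriv := by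
    intro x t
    rw [hasDerivAt_pi]
    intro i
    refine Fin.cases ?_ (fun j => ?_) i
    · exact hasDerivAt_const t (0 : ℝ)
    · exact (hasDerivAt_pi.1 (D.γ_deriv x t)) j
  γ_V := by
    intro x t
    show D.V (D.γ x t, t) + (1 - Real.cos (2 * Real.pi * 0)) = 0
    rw [D.γ_V]
    simp
  γ_cont := by
    rw [continuous_pi_iff]
    intro i
    refine Fin.cases ?_ (fun j => ?_) i
    · exact continuous_const
    · exact (continuous_apply j).comp D.γ_cont
  γ_per1 := by
    intro x t
    funext i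
    refine Fin.cases ?_ (fun j => ?_) i
    · show (0 : ℝ) = 0 + ((0 : ℤ) : ℝ)
      simp
    · exact congrFun (D.γ_per1 x t) j
  γ_per2 := by
    intro x t
    funext i
    refine Fin.cases ?_ (fun j => ?_) i
    · rfl
    · exact congrFun (D.γ_per2 x t) j

theorem exists_data (n : ℕ) (hn : 11 ≤ n) :
    ∃ (D : MData n) (i0 : Fin n), D.h = Pi.single i0 om := by
  induction n, hn using Nat.le_induction with
  | base =>
    obtain ⟨D, h0, h1⟩ := exists_MData
    refine ⟨D, 0, ?_⟩
    funext i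
    refine Fin.cases ?_ (fun j => ?_) i
    · rw [h0]; simp
    · rw [h1]; simp
  | succ n hn ih =>
    obtain ⟨D, i0, h⟩ := ih
    refine ⟨extD D, i0.succ, ?_⟩
    funext i
    refine Fin.cases ?_ (fun j => ?_) i
    · show (0 : ℝ) = _
      rw [Pi.single_eq_of_ne]
      exact (Fin.succ_ne_zero i0).symm
    · show D.h j = _
      rw [h]
      by_cases hj : j = i0
      · subst hj; simp
      · rw [Pi.single_eq_of_ne hj, Pi.single_eq_of_ne]
        exact fun h' => hj (Fin.succ_injective _ h')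

/-- helper981's example in every dimension at least `11` -/
theorem main (n : ℕ) (hn : 11 ≤ n) : ∃ (L : Phase n → ℝ) (Φ : ℝ → Phase n → Phase n) (i0 : Fin n),
    IsTonelli L ∧ IsELFlow L Φ ∧ beta L Φ (Pi.single i0 om) = 0 ∧
      ∃ κ : ℝ, 0 < κ ∧ ∀ h' : Fin n → ℝ,
        ((κ * ‖h' - Pi.single i0 om‖ : ℝ) : EReal) ≤ beta L Φ h' := by
  obtain ⟨D, i0, h⟩ := exists_data n hn
  have h1 := beta_h D
  have h2 := beta_lower D
  rw [h] at h1
  simp only [h] at h2
  exact ⟨LD D, PhiD D, i0, isTonelli_LD D, isELFlow_PhiD D, h1, h2⟩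

/-! ### irrationality of the class -/

/-- closed subgroup where all coordinates but one vanish -/
def KK (i0 : Fin n) : AddSubgroup (Torus n) where
  carrier := {θ | ∀ i, i ≠ i0 → θ i = 0}
  add_mem' := by
    intro a b ha hb i hi
    rw [Pi.add_apply, ha i hi, hb i hi, add_zero]
  zero_mem' := fun i _ => rfl
  neg_mem' := by
    intro a ha i hi
    rw [Pi.neg_apply, ha i hi, neg_zero]

lemma KK_closed (i0 : Fin n) : IsClosed (KK i0 : Set (Torus n)) := by
  have : (KK i0 : Set (Torus n)) = ⋂ i : Fin n, {θ | i ≠ i0 → θ i = 0} := by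
    ext θ
    simp [KK]
  rw [this]
  refine isClosed_iInter (fun i => ?_)
  by_cases hi : i = i0
  · simp [hi]
  · simp only [ne_eq, hi, not_false_eq_true, forall_true_left]
    exact isClosed_eq (continuous_apply _) continuous_const

lemma toT_mem_KK {i0 : Fin n} {v : Fin n → ℝ} (hv : ∀ i, i ≠ i0 → v i = 0) : toT v ∈ KK i0 := by
  intro i hi
  simp only [toT, hv i hi]
  rfl

/-- the embedding of the circle as a coordinate -/
noncomputable def emb1 (i0 : Fin n) (θ : AddCircle (1 : ℝ)) : Torus n := Pi.single i0 θ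

lemma emb1_cont (i0 : Fin n) : Continuous (emb1 i0) := by
  refine continuous_pi (fun i => ?_)
  by_cases hi : i = i0
  · subst hi
    simp only [emb1, Pi.single_eq_same]
    exact continuous_id
  · simp only [emb1, Pi.single_eq_of_ne hi]
    exact continuous_const

lemma dim_eq {i0 : Fin n} {H : AddSubgroup (Torus n)} (h1 : H ≤ KK i0) (h2 : ∀ θ, emb1 i0 θ ∈ H) :
    dimT H = 1 := by
  have e : lieAlg H = Submodule.span ℝ {(Pi.single i0 1 : Fin n → ℝ)} := by
    ext v
    rw [Submodule.mem_span_singleton]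
    constructor
    · intro hv
      refine ⟨v i0, ?_⟩
      ext i
      by_cases hi : i = i0
      · subst hi; simp
      · have hz : v i = 0 := by
          by_contra hne
          have h3 := h1 (hv (1 / (2 * v i)))
          have h4 : (((1 / (2 * v i)) • v) i : AddCircle (1 : ℝ)) = 0 := h3 i hi
          rw [Pi.smul_apply, smul_eq_mul] at h4
          have h5 : 1 / (2 * v i) * v i = 1 / 2 := by field_simp
          rw [h5, AddCircle.coe_eq_zero_iff] at h4
          obtain ⟨m, hm⟩ := h4
          rw [zsmul_eq_mul, mul_one] at hm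
          have h6 : (m : ℝ) * 2 = 1 := by
            rw [hm]
            norm_num
          have h7 : m * 2 = 1 := by exact_mod_cast h6
          omega
        rw [hz]
        simp [hi]
    · rintro ⟨c, rfl⟩ s
      have : toT (s • c • (Pi.single i0 1 : Fin n → ℝ)) = emb1 i0 ((s * c : ℝ) : AddCircle (1 : ℝ)) := by
        ext i
        by_cases hi : i = i0
        · subst hi; simp [toT, emb1]
        · simp [toT, emb1, hi]
      rw [this]
      exact h2 _
  unfold dimT
  rw [e]
  exact finrank_span_singleton (by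
    intro h
    have := congrFun h i0
    simp at this)

lemma emb1_mem (i0 : Fin n) (θ : AddCircle (1 : ℝ)) :
    emb1 i0 θ ∈ (AddSubgroup.closure (Set.range fun m : ℤ =>
      toT (m • (Pi.single i0 om : Fin n → ℝ)))).topologicalClosure := by
  have e1 : ∀ m : ℤ, emb1 i0 (m • ((om : ℝ) : AddCircle (1 : ℝ))) =
      toT (m • (Pi.single i0 om : Fin n → ℝ)) := by
    intro m
    ext i
    by_cases hi : i = i0
    · subst hi; simp [toT, emb1]
    · simp [toT, emb1, hi]
  have h2 : θ ∈ closure (Set.range (fun m : ℤ => m • ((om : ℝ) : AddCircle (1 : ℝ)))) :=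
    dense_om θ
  have h3 := map_mem_closure (emb1_cont i0) h2
    (t := (AddSubgroup.closure (Set.range fun m : ℤ =>
      toT (m • (Pi.single i0 om : Fin n → ℝ))) : Set (Torus n))) (by
      rintro _ ⟨m, rfl⟩
      rw [e1]
      exact AddSubgroup.subset_closure ⟨m, rfl⟩)
  exact h3

lemma IZ_eq (i0 : Fin n) : IZ (Pi.single i0 om : Fin n → ℝ) = 1 := by
  apply dim_eq (i0 := i0)
  · apply AddSubgroup.topologicalClosure_minimal _ _ (KK_closed i0)
    rw [AddSubgroup.closure_le]
    rintro _ ⟨m, rfl⟩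
    apply toT_mem_KK
    intro i hi
    simp [hi]
  · exact emb1_mem i0

lemma IR_eq (i0 : Fin n) : IR (Pi.single i0 om : Fin n → ℝ) = 1 := by
  apply dim_eq (i0 := i0)
  · apply AddSubgroup.topologicalClosure_minimal _ _ (KK_closed i0)
    rw [AddSubgroup.closure_le]
    rintro _ ⟨m, rfl⟩
    apply toT_mem_KK
    intro i hi
    simp [hi]
  · intro θ
    refine AddSubgroup.topologicalClosure_mono ?_ (emb1_mem i0 θ)
    rw [AddSubgroup.closure_le]
    rintro _ ⟨m, rfl⟩
    refine AddSubgroup.subset_closure ⟨(m : ℝ), ?_⟩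
    simp only
    congr 1
    ext i
    simp

end Pool.Agent.Y589.VT
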